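import Mathlib
import Pool.Graph.R_seed8.Helper234.Calkin.Main

/-!
# A countable set of operators that prevents the complementation of the compact operators
-/

namespace Pool.Agent.KS6_5.Kcomp

open Pool.Agent.Helper234.Calkin

/-- A countable set `G` of operators such that no linear subspace of `B(ℓ²)` that contains `G` and
the compact operators admits a bounded linear projection onto the compact operators. -/
theorem exists_countable : ∃ G : Set BH, G.Countable ∧ ∀ A : Submodule ℂ BH, G ⊆ (A : Set BH) →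
    (∀ k : BH, IsCompactOperator (⇑k) → k ∈ A) → ∀ (q : A →ₗ[ℂ] BH) (C : ℝ),
    (∀ a : A, ‖q a‖ ≤ C * ‖(a : BH)‖) → (∀ a : A, IsCompactOperator (⇑(q a))) →
    (∀ a : A, IsCompactOperator (⇑(a : BH)) → q a = a) → False := by
  choose G hG1 hG2 using fun n : ℕ => level (n : ℝ)
  refine ⟨⋃ n, G n, Set.countable_iUnion hG1, ?_⟩
  intro A hGA hKA q C hq1 hq2 hq3
  obtain ⟨τ, hτ⟩ := LinearMap.exists_extend (p := A) (A.subtype - q)
  have hτ' : ∀ (a : BH) (ha : a ∈ A), τ a = a - q ⟨a, ha⟩ := by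
    intro a ha
    have := congrArg (fun f => f ⟨a, ha⟩) hτ
    simpa using this
  obtain ⟨n, hn⟩ := exists_nat_gt (2 * (|C| + 1 + 1) + 1)
  have hC : 0 < |C| + 1 + 1 := by positivity
  have := hG2 n A (fun a ha => hGA (Set.mem_iUnion.2 ⟨n, ha⟩)) hKA τ (|C| + 1 + 1) hC
    (by
      intro a ha
      rw [hτ' a ha]
      have h0 := hq1 ⟨a, ha⟩
      have h1 := le_abs_self C
      have h2 := norm_nonneg a
      have h3 := norm_sub_le a (q ⟨a, ha⟩)
      have h4 : C * ‖((⟨a, ha⟩ : A) : BH)‖ ≤ |C| * ‖a‖ := mul_le_mul_of_nonneg_right h1 h2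
      nlinarith)
    (by
      intro k hk
      rw [hτ' k (hKA k hk), hq3 ⟨k, hKA k hk⟩ hk]
      simp)
    (by
      intro a ha
      rw [hτ' a ha]
      have h := hq2 ⟨a, ha⟩
      have e : a - (a - q ⟨a, ha⟩) = q ⟨a, ha⟩ := by abel
      rw [e]
      exact h)
  linarith

/-- If `j : A → X` is bounded and bounded below on the compact operators, a bounded projection of
`X` onto the image of the compact operators induces a bounded projection on `A`. -/
theorem not_complemented {A : Submodule ℂ BH}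
    (hA : ∀ (q : A →ₗ[ℂ] BH) (C : ℝ),
      (∀ a : A, ‖q a‖ ≤ C * ‖(a : BH)‖) → (∀ a : A, IsCompactOperator (⇑(q a))) →
      (∀ a : A, IsCompactOperator (⇑(a : BH)) → q a = a) → False)
    {X : Type*} [NormedAddCommGroup X] [NormedSpace ℂ X] (j : A →ₗ[ℂ] X) (c D : ℝ) (hc : 0 < c)
    (hD : ∀ a : A, ‖j a‖ ≤ D * ‖(a : BH)‖)
    (hj : ∀ a : A, IsCompactOperator (⇑(a : BH)) → c * ‖(a : BH)‖ ≤ ‖j a‖)
    (P : X →L[ℂ] X) (hP1 : ∀ x, ∃ a : A, IsCompactOperator (⇑(a : BH)) ∧ P x = j a)
    (hP2 : ∀ a : A, IsCompactOperator (⇑(a : BH)) → P (j a) = j a) : False := by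
  have inj : ∀ a b : A, IsCompactOperator (⇑(a : BH)) → IsCompactOperator (⇑(b : BH)) →
      j a = j b → a = b := by
    intro a b ha hb hab
    have h1 : IsCompactOperator (⇑((a - b : A) : BH)) := ha.sub hb
    have h2 := hj _ h1
    rw [map_sub, hab, sub_self, norm_zero] at h2
    have h3 : ‖((a - b : A) : BH)‖ = 0 := by
      have := norm_nonneg ((a - b : A) : BH)
      nlinarith
    have h4 : ((a - b : A) : BH) = 0 := norm_eq_zero.1 h3
    exact sub_eq_zero.1 (Subtype.ext h4)
  choose κ hκ1 hκ2 using fun a : A => hP1 (j a)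
  let q : A →ₗ[ℂ] BH :=
    { toFun := fun a => (κ a : BH)
      map_add' := fun a b => by
        have : κ (a + b) = κ a + κ b := by
          refine inj _ _ (hκ1 _) ((hκ1 a).add (hκ1 b)) ?_
          rw [map_add, ← hκ2, ← hκ2, ← hκ2, map_add, map_add]
        rw [this]
        rfl
      map_smul' := fun t a => by
        have : κ (t • a) = t • κ a := by
          refine inj _ _ (hκ1 _) ((hκ1 a).smul t) ?_
          rw [map_smul, ← hκ2, ← hκ2, map_smul, map_smul]
        rw [this]
        rfl }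
  refine hA q (c⁻¹ * (‖P‖ * D)) ?_ hκ1 ?_
  · intro a
    have h1 := hj _ (hκ1 a)
    rw [← hκ2] at h1
    have h2 := P.le_opNorm (j a)
    have h3 := hD a
    have h4 : ‖P‖ * ‖j a‖ ≤ ‖P‖ * (D * ‖(a : BH)‖) := mul_le_mul_of_nonneg_left h3 (norm_nonneg _)
    show ‖(κ a : BH)‖ ≤ c⁻¹ * (‖P‖ * D) * ‖(a : BH)‖
    rw [mul_assoc, ← div_eq_inv_mul, le_div_iff₀ hc]
    linarith
  · intro a ha
    have : κ a = a := inj _ _ (hκ1 a) ha (by rw [← hκ2, hP2 a ha])
    show ((κ a : A) : BH) = a
    rw [this]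

/-- Every separable set of operators lies in a separable closed unital star subalgebra of `B(ℓ²)`
that contains the compact operators. -/
theorem exists_alg (S : Set BH) (hS : TopologicalSpace.IsSeparable S) :
    ∃ A : StarSubalgebra ℂ BH, IsClosed (A : Set BH) ∧ TopologicalSpace.IsSeparable (A : Set BH) ∧
      S ⊆ A ∧ ∀ k : BH, IsCompactOperator (⇑k) → k ∈ A := by
  obtain ⟨T, h1, h2, h3⟩ := exists_separable_alg
    (S ∪ {1} ∪ {k : BH | IsCompactOperator (⇑k)})
    ((hS.union (Set.countable_singleton 1).isSeparable).union compact_isSeparable)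
  have hone : (1 : BH) ∈ T := h2 (Or.inl (Or.inr rfl))
  refine ⟨T.toStarSubalgebra hone, h1, h3, fun s hs => h2 (Or.inl (Or.inl hs)),
    fun k hk => h2 (Or.inr hk)⟩

end Pool.Agent.KS6_5.Kcomp
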