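import Mathlib

/-!
# The C*-algebra of all bounded operators on `ℓ²`, as a named type, and complemented subspaces
-/

namespace Pool.Agent.KS6_5.Kcomp

/-- The complex Hilbert space `ℓ²(ℕ)`. -/
def L2 : Type := lp (fun _ : ℕ => ℂ) 2

noncomputable instance instNormL2 : NormedAddCommGroup L2 :=
  (inferInstance : NormedAddCommGroup (lp (fun _ : ℕ => ℂ) 2))

noncomputable instance instInnerL2 : InnerProductSpace ℂ L2 :=
  (inferInstance : InnerProductSpace ℂ (lp (fun _ : ℕ => ℂ) 2))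

instance instCompleteL2 : CompleteSpace L2 :=
  (inferInstance : CompleteSpace (lp (fun _ : ℕ => ℂ) 2))

/-- The algebra of all bounded linear operators on the complex Hilbert space `ℓ²(ℕ)`. -/
def B : Type := L2 →L[ℂ] L2

/-- The usual C*-algebra structure of `B(ℓ²)`. -/
noncomputable instance instCStarB : CStarAlgebra B := (inferInstance : CStarAlgebra (L2 →L[ℂ] L2))

/-- The operator `k` on `ℓ²` is compact. -/
def IsCpt (k : B) : Prop := IsCompactOperator (⇑(show L2 →L[ℂ] L2 from k))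

/-- For a subspace `A` of a normed space `E` and a set `K` in `E`: the linear map `j : A → X` is
bounded, and it is bounded below on `A ∩ K`. -/
def EmbedsOn {E X : Type*} [NormedAddCommGroup E] [NormedSpace ℂ E] [NormedAddCommGroup X]
    [NormedSpace ℂ X] (A : Submodule ℂ E) (K : Set E) (j : A →ₗ[ℂ] X) : Prop :=
  (∃ D : ℝ, ∀ a : A, ‖j a‖ ≤ D * ‖(a : E)‖) ∧
    ∃ c : ℝ, 0 < c ∧ ∀ a : A, (a : E) ∈ K → c * ‖(a : E)‖ ≤ ‖j a‖

/-- For a subspace `A` of `E`, a set `K` in `E` and a linear map `j : A → X`: the image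
`j(A ∩ K)` is the range of a bounded linear projection on `X`. -/
def ImageComplemented {E X : Type*} [NormedAddCommGroup E] [NormedSpace ℂ E]
    [NormedAddCommGroup X] [NormedSpace ℂ X] (A : Submodule ℂ E) (K : Set E) (j : A →ₗ[ℂ] X) :
    Prop :=
  ∃ P : X →L[ℂ] X, (∀ x, ∃ a : A, (a : E) ∈ K ∧ P x = j a) ∧ ∀ a : A, (a : E) ∈ K → P (j a) = j a

/-- There is a bounded linear projection of the subspace `V` of `E` onto `V ∩ K`. -/
def ComplementedIn {E : Type*} [NormedAddCommGroup E] [NormedSpace ℂ E] (K : Set E)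
    (V : Submodule ℂ E) : Prop :=
  ∃ (P : V →ₗ[ℂ] V) (D : ℝ), (∀ v : V, ‖(P v : E)‖ ≤ D * ‖(v : E)‖) ∧
    (∀ v : V, (P v : E) ∈ K) ∧ ∀ v : V, (v : E) ∈ K → P v = v

end Pool.Agent.KS6_5.Kcomp
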