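import Mathlib
import Pool.Agent.KS6_5.Kcomp.Core
import Pool.Agent.KS6_5.Kcomp.Defs

namespace Pool.Agent.KS6_5.Kcomp

theorem exists_countable' : ∃ G : Set B, G.Countable ∧ ∀ A : Submodule ℂ B, G ⊆ (A : Set B) →
    (∀ k : B, IsCpt k → k ∈ A) → ∀ (q : A →ₗ[ℂ] B) (C : ℝ),
    (∀ a : A, ‖q a‖ ≤ C * ‖(a : B)‖) → (∀ a : A, IsCpt (q a)) →
    (∀ a : A, IsCpt (a : B) → q a = a) → False :=
  exists_countable

theorem exists_alg' (S : Set B) (hS : TopologicalSpace.IsSeparable S) :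
    ∃ A : StarSubalgebra ℂ B, IsClosed (A : Set B) ∧ TopologicalSpace.IsSeparable (A : Set B) ∧
      S ⊆ A ∧ ∀ k : B, IsCpt k → k ∈ A :=
  exists_alg S hS

theorem not_complemented' {A : Submodule ℂ B}
    (hA : ∀ (q : A →ₗ[ℂ] B) (C : ℝ),
      (∀ a : A, ‖q a‖ ≤ C * ‖(a : B)‖) → (∀ a : A, IsCpt (q a)) →
      (∀ a : A, IsCpt (a : B) → q a = a) → False)
    {X : Type*} [NormedAddCommGroup X] [NormedSpace ℂ X] (j : A →ₗ[ℂ] X) (c D : ℝ) (hc : 0 < c)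
    (hD : ∀ a : A, ‖j a‖ ≤ D * ‖(a : B)‖)
    (hj : ∀ a : A, IsCpt (a : B) → c * ‖(a : B)‖ ≤ ‖j a‖)
    (P : X →L[ℂ] X) (hP1 : ∀ x, ∃ a : A, IsCpt (a : B) ∧ P x = j a)
    (hP2 : ∀ a : A, IsCpt (a : B) → P (j a) = j a) : False :=
  not_complemented hA j c D hc hD hj P hP1 hP2

end Pool.Agent.KS6_5.Kcomp
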